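import Mathlib

set_option autoImplicit false

open Multiset

namespace Pool.Agent.Lib.MP_2b3d4e_al

/-- A residue class `r(m)` with `0 ≤ r < m`. -/
@[ext] structure RC where
  r : ℤ
  m : ℤ
  h0 : 0 ≤ r
  h1 : r < m

namespace RC

theorem m_pos (A : RC) : 0 < A.m := lt_of_le_of_lt A.h0 A.h1

/-- The `k`-th point of a class. -/
def pt (A : RC) (k : ℤ) : ℤ := A.r + A.m * k

/-- Membership in a class. -/
def Mem (A : RC) (n : ℤ) : Prop := ∃ k : ℤ, n = A.pt k

theorem mem_pt (A : RC) (k : ℤ) : A.Mem (A.pt k) := ⟨k, rfl⟩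

theorem pt_inj (A : RC) {k l : ℤ} (h : A.pt k = A.pt l) : k = l := by
  unfold pt at h
  have := A.m_pos
  exact mul_left_cancel₀ this.ne' (add_left_cancel h)

theorem mem_iff_modEq (A : RC) (n : ℤ) : A.Mem n ↔ Int.ModEq A.m n A.r := by
  constructor
  · rintro ⟨k, rfl⟩
    unfold pt
    exact (Int.modEq_iff_dvd.2 ⟨-k, by ring⟩)
  · intro h
    obtain ⟨c, hc⟩ := Int.modEq_iff_dvd.1 h
    exact ⟨-c, by unfold pt; linarith⟩

theorem mem_r (A : RC) : A.Mem A.r := ⟨0, by simp [pt]⟩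

theorem eq_of_mem_r {A B : RC} (hm : A.m = B.m) (h : A.Mem B.r) : A = B := by
  obtain ⟨k, hk⟩ := h
  have h0 := A.h0; have h1 := A.h1; have h2 := B.h0; have h3 := B.h1
  have hp := A.m_pos
  unfold pt at hk
  have hk0 : k = 0 := by
    rcases lt_trichotomy k 0 with h | h | h
    · exfalso; nlinarith
    · exact h
    · exfalso; nlinarith
  subst hk0
  ext
  · simp at hk; exact hk.symm
  · exact hm

/-- The index of a point in its class. -/
def idx (A : RC) (n : ℤ) : ℤ := (n - A.r) / A.m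

theorem idx_pt (A : RC) (k : ℤ) : A.idx (A.pt k) = k := by
  unfold idx pt
  rw [add_sub_cancel_left, Int.mul_ediv_cancel_left _ A.m_pos.ne']

/-- The `t`-th of the `p + 1` subclasses of `A`. -/
def sub (A : RC) (p : ℕ) (t : Fin (p + 1)) : RC where
  r := A.r + A.m * (t : ℕ)
  m := A.m * (p + 1 : ℕ)
  h0 := by
    have := A.h0; have := A.m_pos
    positivity
  h1 := by
    have h1 := A.h1; have hp := A.m_pos
    have ht : ((t : ℕ) : ℤ) + 1 ≤ ((p + 1 : ℕ) : ℤ) := by exact_mod_cast t.2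
    nlinarith

theorem sub_pt (A : RC) (p : ℕ) (t : Fin (p + 1)) (k : ℤ) :
    (A.sub p t).pt k = A.pt ((t : ℕ) + (p + 1 : ℕ) * k) := by
  simp only [pt, sub]; ring

/-- The splitting of a class into `p + 1` subclasses. -/
def split (A : RC) (p : ℕ) : Multiset RC :=
  (Finset.univ : Finset (Fin (p + 1))).val.map (A.sub p)

theorem card_split (A : RC) (p : ℕ) : card (A.split p) = p + 1 := by
  simp [split]

theorem m_of_mem_split {A B : RC} {p : ℕ} (h : B ∈ A.split p) : B.m = A.m * (p + 1 : ℕ) := by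
  simp only [split, Multiset.mem_map] at h
  obtain ⟨t, -, rfl⟩ := h
  rfl

end RC

open RC

open Classical in
/-- The number of classes of `P` containing `n`. -/
noncomputable def cnt (P : Multiset RC) (n : ℤ) : ℕ := P.countP (fun A => A.Mem n)

@[simp] theorem cnt_zero (n : ℤ) : cnt 0 n = 0 := by simp [cnt]

open Classical in
theorem cnt_cons (A : RC) (P : Multiset RC) (n : ℤ) :
    cnt (A ::ₘ P) n = cnt P n + if A.Mem n then 1 else 0 := by
  simp only [cnt, Multiset.countP_cons]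

theorem cnt_add (P Q : Multiset RC) (n : ℤ) : cnt (P + Q) n = cnt P n + cnt Q n := by
  simp only [cnt, Multiset.countP_add]

theorem cnt_pos_iff (P : Multiset RC) (n : ℤ) : 0 < cnt P n ↔ ∃ A ∈ P, A.Mem n := by
  simp only [cnt, Multiset.countP_pos]

theorem cnt_eq_zero_iff (P : Multiset RC) (n : ℤ) : cnt P n = 0 ↔ ∀ A ∈ P, ¬ A.Mem n := by
  simp only [cnt, Multiset.countP_eq_zero]

open Classical in
theorem cnt_split (A : RC) (p : ℕ) (n : ℤ) :
    cnt (A.split p) n = if A.Mem n then 1 else 0 := by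
  simp only [cnt, split, Multiset.countP_map]
  rw [← Finset.filter_val, ← Finset.card_def]
  split_ifs with h
  · obtain ⟨k, rfl⟩ := h
    have hp : (0 : ℤ) < ((p + 1 : ℕ) : ℤ) := by positivity
    have h0 : 0 ≤ k % ((p + 1 : ℕ) : ℤ) := Int.emod_nonneg _ hp.ne'
    have h1 : k % ((p + 1 : ℕ) : ℤ) < ((p + 1 : ℕ) : ℤ) := Int.emod_lt_of_pos _ hp
    rw [Finset.card_eq_one]
    refine ⟨⟨(k % ((p + 1 : ℕ) : ℤ)).toNat, by omega⟩, ?_⟩
    ext t
    simp only [Finset.mem_filter, Finset.mem_univ, true_and, Finset.mem_singleton]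
    constructor
    · rintro ⟨l, hl⟩
      rw [sub_pt] at hl
      have := A.pt_inj hl
      ext
      have ht : ((t : ℕ) : ℤ) < ((p + 1 : ℕ) : ℤ) := by exact_mod_cast t.2
      have : k % ((p + 1 : ℕ) : ℤ) = ((t : ℕ) : ℤ) := by
        rw [this, Int.add_mul_emod_self_left]
        exact Int.emod_eq_of_lt (by positivity) ht
      simp only [this, Int.toNat_natCast]
    · rintro rfl
      refine ⟨k / ((p + 1 : ℕ) : ℤ), ?_⟩
      rw [sub_pt]
      congr 1
      simp only [Int.toNat_of_nonneg h0]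
      exact (Int.emod_add_mul_ediv k _).symm
  · rw [Finset.card_eq_zero, Finset.filter_eq_empty_iff]
    rintro t - ⟨l, hl⟩
    rw [sub_pt] at hl
    exact h ⟨_, hl⟩

theorem cnt_split_add (A : RC) (p : ℕ) (P : Multiset RC) (n : ℤ) :
    cnt (A.split p + P) n = cnt (A ::ₘ P) n := by
  rw [cnt_add, cnt_split, cnt_cons, add_comm]

theorem cnt_bind_split (S : Multiset RC) (k : RC → ℕ) (n : ℤ) :
    cnt (S.bind fun A => A.split (k A)) n = cnt S n := by
  induction S using Multiset.induction_on with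
  | empty => simp
  | cons A S ih => rw [Multiset.cons_bind, cnt_add, ih, ← cnt_add, cnt_split_add]

/-- Two multisets of classes of one modulus with the same counting function agree. -/
theorem eq_of_cnt_eq {S T : Multiset RC} {M : ℤ} (hS : ∀ A ∈ S, A.m = M) (hT : ∀ A ∈ T, A.m = M)
    (h : ∀ n, cnt S n = cnt T n) : S = T := by
  classical
  have key : ∀ (U : Multiset RC), (∀ A ∈ U, A.m = M) → ∀ B : RC, B.m = M →
      U.count B = cnt U B.r := by
    intro U hU B hB
    unfold cnt Multiset.count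
    apply Multiset.countP_congr rfl
    intro A hA
    apply propext
    constructor
    · rintro rfl; exact mem_r _
    · intro h'
      exact (eq_of_mem_r ((hU A hA).trans hB.symm) h').symm
  ext B
  by_cases hB : B.m = M
  · rw [key S hS B hB, key T hT B hB, h]
  · rw [Multiset.count_eq_zero_of_notMem, Multiset.count_eq_zero_of_notMem]
    · intro h'; exact hB (hT _ h')
    · intro h'; exact hB (hS _ h')

/-- `f` maps the class `A` onto the class `B` in the canonical way. -/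
def Canon (f : ℤ → ℤ) (A B : RC) : Prop := ∀ k : ℤ, f (A.pt k) = B.pt k

theorem Canon.split {f : ℤ → ℤ} {A B : RC} (h : Canon f A B) (p : ℕ) :
    Rel (Canon f) (A.split p) (B.split p) := by
  unfold RC.split
  rw [Multiset.rel_map]
  apply Multiset.rel_refl_of_refl_on
  intro t _ k
  rw [sub_pt, sub_pt, h]

theorem rel_comp {f g : ℤ → ℤ} {P Q R : Multiset RC} (h1 : Rel (Canon f) P Q)
    (h2 : Rel (Canon g) Q R) : Rel (Canon (g ∘ f)) P R := by
  induction h1 generalizing R with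
  | zero => rw [Multiset.rel_zero_left] at h2; subst h2; exact Rel.zero
  | @cons A B P Q hAB _ ih =>
    obtain ⟨C, R', hBC, hQR, rfl⟩ := Multiset.rel_cons_left.1 h2
    refine Rel.cons ?_ (ih hQR)
    intro k
    simp only [Function.comp, hAB k, hBC k]

theorem rel_inv {g : Equiv.Perm ℤ} {P Q : Multiset RC} (h : Rel (Canon g) P Q) :
    Rel (Canon (g⁻¹ : Equiv.Perm ℤ)) Q P := by
  induction h with
  | zero => exact Rel.zero
  | @cons A B P Q hAB _ ih =>
    refine Rel.cons ?_ ih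
    intro k
    rw [← hAB k]; simp

theorem rel_of_fix {f : ℤ → ℤ} {P : Multiset RC} (h : ∀ n, 0 < cnt P n → f n = n) :
    Rel (Canon f) P P := by
  apply Multiset.rel_refl_of_refl_on
  intro A hA k
  exact h _ ((cnt_pos_iff _ _).2 ⟨A, hA, mem_pt _ _⟩)

theorem cnt_of_rel {f : ℤ → ℤ} (hf : Function.Injective f) {P Q : Multiset RC}
    (h : Rel (Canon f) P Q) (n : ℤ) : cnt Q (f n) = cnt P n := by
  induction h with
  | zero => simp
  | @cons A B P Q hAB _ ih =>
    rw [cnt_cons, cnt_cons, ih]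
    have : B.Mem (f n) ↔ A.Mem n := by
      constructor
      · rintro ⟨k, hk⟩
        rw [← hAB k] at hk
        exact ⟨k, hf hk⟩
      · rintro ⟨k, rfl⟩
        exact ⟨k, hAB k⟩
    by_cases h : A.Mem n
    · rw [if_pos h, if_pos (this.2 h)]
    · rw [if_neg h, if_neg (fun h' => h (this.1 h'))]

open Classical in
theorem exists_fun_cons {A B : RC} {P Q : Multiset RC} (hP : ∀ n, cnt (A ::ₘ P) n ≤ 1)
    {f : ℤ → ℤ} (hf : Rel (Canon f) P Q) :
    ∃ f' : ℤ → ℤ, Canon f' A B ∧ Rel (Canon f') P Q := by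
  refine ⟨fun n => if A.Mem n then B.pt (A.idx n) else f n, ?_, ?_⟩
  · intro k
    show (if A.Mem (A.pt k) then B.pt (A.idx (A.pt k)) else f (A.pt k)) = B.pt k
    rw [if_pos (mem_pt _ _), idx_pt]
  · refine hf.mono ?_
    intro C hC D _ hCD k
    have h1 := hP (C.pt k)
    have h2 : 0 < cnt P (C.pt k) := (cnt_pos_iff _ _).2 ⟨C, hC, mem_pt _ _⟩
    rw [cnt_cons] at h1
    have h3 : ¬ A.Mem (C.pt k) := by
      intro h; rw [if_pos h] at h1; omega
    show (if A.Mem (C.pt k) then B.pt (A.idx (C.pt k)) else f (C.pt k)) = D.pt k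
    rw [if_neg h3]
    exact hCD k

theorem exists_fun {P Q : Multiset RC} (hc : card P = card Q) (hP : ∀ n, cnt P n ≤ 1) :
    ∃ f : ℤ → ℤ, Rel (Canon f) P Q := by
  induction P using Multiset.induction_on generalizing Q with
  | empty =>
    have : Q = 0 := by simpa using hc.symm
    subst this
    exact ⟨id, Rel.zero⟩
  | cons A P ih =>
    have hQ : Q ≠ 0 := by rintro rfl; simp at hc
    obtain ⟨B, hB⟩ := Multiset.exists_mem_of_ne_zero hQ
    obtain ⟨Q0, rfl⟩ := Multiset.exists_cons_of_mem hB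
    have hc' : card P = card Q0 := by simpa using hc
    obtain ⟨f, hf⟩ := ih hc' (fun n => by
      have := hP n; rw [cnt_cons] at this; omega)
    obtain ⟨f', h1, h2⟩ := exists_fun_cons (B := B) hP hf
    exact ⟨f', Rel.cons h1 h2⟩

theorem bijective_of_rel {f : ℤ → ℤ} {P Q : Multiset RC} (hP : ∀ n, cnt P n = 1)
    (hQ : ∀ n, cnt Q n = 1) (h : Rel (Canon f) P Q) : Function.Bijective f := by
  constructor
  · intro n1 n2 h12
    obtain ⟨A, hA, k1, rfl⟩ := (cnt_pos_iff P n1).1 (by rw [hP]; exact one_pos)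
    obtain ⟨P0, rfl⟩ := Multiset.exists_cons_of_mem hA
    obtain ⟨B, Q0, hAB, hPQ, rfl⟩ := Multiset.rel_cons_left.1 h
    by_cases h2 : A.Mem n2
    · obtain ⟨k2, rfl⟩ := h2
      rw [hAB, hAB] at h12
      rw [B.pt_inj h12]
    · exfalso
      have h3 := hP n2
      rw [cnt_cons, if_neg h2] at h3
      obtain ⟨C, hC, k2, rfl⟩ := (cnt_pos_iff P0 n2).1 (by omega)
      obtain ⟨D, hD, hCD⟩ := Multiset.exists_mem_of_rel_of_mem hPQ hC
      rw [hAB, hCD] at h12
      have h4 := hQ (B.pt k1)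
      rw [cnt_cons, if_pos (mem_pt _ _)] at h4
      have h5 : 0 < cnt Q0 (B.pt k1) := (cnt_pos_iff _ _).2 ⟨D, hD, k2, h12⟩
      omega
  · intro n
    obtain ⟨B, hB, k, rfl⟩ := (cnt_pos_iff Q n).1 (by rw [hQ]; exact one_pos)
    obtain ⟨A, _, hAB⟩ := Multiset.exists_mem_of_rel_of_mem (Multiset.rel_flip.2 h) hB
    exact ⟨A.pt k, hAB k⟩

theorem exists_perm_cons {A B : RC} {P Q : Multiset RC} (hP : ∀ n, cnt (A ::ₘ P) n = 1)
    (hQ : ∀ n, cnt (B ::ₘ Q) n = 1) (hc : card P = card Q) :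
    ∃ g : Equiv.Perm ℤ, Canon g A B ∧ Rel (Canon g) P Q := by
  obtain ⟨f, hf⟩ := exists_fun hc (fun n => by
    have := hP n; rw [cnt_cons] at this; omega)
  obtain ⟨f', h1, h2⟩ := exists_fun_cons (B := B) (fun n => (hP n).le) hf
  exact ⟨Equiv.ofBijective f' (bijective_of_rel hP hQ (Rel.cons h1 h2)), h1, h2⟩

end Pool.Agent.Lib.MP_2b3d4e_al
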