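import Mathlib
import Pool.Agent.Lib.MP_2b3d4e_al.Basic

set_option autoImplicit false

open Multiset

namespace Pool.Agent.Lib.MP_2b3d4e_al

open RC

theorem rel_mul {f g : Equiv.Perm ℤ} {P Q R : Multiset RC} (h1 : Rel (Canon f) P Q)
    (h2 : Rel (Canon g) Q R) : Rel (Canon (g * f : Equiv.Perm ℤ)) P R :=
  rel_comp (f := f) (g := g) h1 h2

/-- The set of class transpositions. -/
def gens : Set (Equiv.Perm ℤ) :=
  {σ : Equiv.Perm ℤ | ∃ r₁ m₁ r₂ m₂ : ℤ,
          0 ≤ r₁ ∧ r₁ < m₁ ∧ 0 ≤ r₂ ∧ r₂ < m₂ ∧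
          (∀ n : ℤ, ¬ (Int.ModEq m₁ n r₁ ∧ Int.ModEq m₂ n r₂)) ∧
          (∀ k : ℤ, σ (r₁ + m₁ * k) = r₂ + m₂ * k ∧ σ (r₂ + m₂ * k) = r₁ + m₁ * k) ∧
          ∀ n : ℤ, ¬ Int.ModEq m₁ n r₁ → ¬ Int.ModEq m₂ n r₂ → σ n = n}

/-- The group generated by all class transpositions. -/
def CT : Subgroup (Equiv.Perm ℤ) := Subgroup.closure gens

theorem mem_gens_iff (σ : Equiv.Perm ℤ) : σ ∈ gens ↔ ∃ A B : RC, (∀ n, ¬ (A.Mem n ∧ B.Mem n)) ∧
    Canon σ A B ∧ Canon σ B A ∧ ∀ n, ¬ A.Mem n → ¬ B.Mem n → σ n = n := by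
  constructor
  · rintro ⟨r₁, m₁, r₂, m₂, h1, h2, h3, h4, h5, h6, h7⟩
    refine ⟨⟨r₁, m₁, h1, h2⟩, ⟨r₂, m₂, h3, h4⟩, ?_, fun k => (h6 k).1, fun k => (h6 k).2, ?_⟩
    · intro n
      rw [mem_iff_modEq, mem_iff_modEq]
      exact h5 n
    · intro n
      rw [mem_iff_modEq, mem_iff_modEq]
      exact h7 n
  · rintro ⟨A, B, h1, h2, h3, h4⟩
    refine ⟨A.r, A.m, B.r, B.m, A.h0, A.h1, B.h0, B.h1, ?_, fun k => ⟨h2 k, h3 k⟩, ?_⟩
    · intro n
      rw [← mem_iff_modEq, ← mem_iff_modEq]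
      exact h1 n
    · intro n
      rw [← mem_iff_modEq, ← mem_iff_modEq]
      exact h4 n

open Classical in
theorem exists_transp {A B : RC} (h : ∀ n, ¬ (A.Mem n ∧ B.Mem n)) :
    ∃ σ ∈ gens, Canon σ A B ∧ Canon σ B A ∧ ∀ n, ¬ A.Mem n → ¬ B.Mem n → σ n = n := by
  let f : ℤ → ℤ := fun n =>
    if A.Mem n then B.pt (A.idx n) else if B.Mem n then A.pt (B.idx n) else n
  have h1 : Canon f A B := by
    intro k
    show (if A.Mem (A.pt k) then B.pt (A.idx (A.pt k)) else _) = _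
    rw [if_pos (mem_pt _ _), idx_pt]
  have h2 : Canon f B A := by
    intro k
    have : ¬ A.Mem (B.pt k) := fun h' => h _ ⟨h', mem_pt _ _⟩
    show (if A.Mem (B.pt k) then _ else if B.Mem (B.pt k) then A.pt (B.idx (B.pt k)) else _) = _
    rw [if_neg this, if_pos (mem_pt _ _), idx_pt]
  have h3 : ∀ n, ¬ A.Mem n → ¬ B.Mem n → f n = n := by
    intro n ha hb
    show (if A.Mem n then _ else if B.Mem n then _ else n) = n
    rw [if_neg ha, if_neg hb]
  have hinv : Function.Involutive f := by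
    intro n
    by_cases ha : A.Mem n
    · obtain ⟨k, rfl⟩ := ha
      rw [h1, h2]
    · by_cases hb : B.Mem n
      · obtain ⟨k, rfl⟩ := hb
        rw [h2, h1]
      · rw [h3 n ha hb, h3 n ha hb]
  exact ⟨hinv.toPerm f, (mem_gens_iff _).2 ⟨A, B, h, h1, h2, h3⟩, h1, h2, h3⟩

theorem exists_swap {A B : RC} {P Q : Multiset RC} (hP : ∀ n, cnt (A ::ₘ P) n ≤ 1)
    (h : A ::ₘ P = B ::ₘ Q) :
    ∃ τ ∈ CT, Canon τ B A ∧ Rel (Canon τ) Q P ∧ ∀ n, cnt (A ::ₘ P) n = 0 → τ n = n := by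
  rcases Multiset.cons_eq_cons.1 h with ⟨rfl, rfl⟩ | ⟨-, R, rfl, rfl⟩
  · refine ⟨1, CT.one_mem, fun k => rfl, rel_of_fix (fun n _ => rfl), fun n _ => rfl⟩
  · have hAB : ∀ n, ¬ (A.Mem n ∧ B.Mem n) := by
      rintro n ⟨ha, hb⟩
      have := hP n
      rw [cnt_cons, cnt_cons, if_pos ha, if_pos hb] at this
      omega
    obtain ⟨σ, hσ, h1, h2, h3⟩ := exists_transp hAB
    refine ⟨σ, Subgroup.subset_closure hσ, h2, Rel.cons h1 (rel_of_fix ?_), ?_⟩
    · intro n hn
      have := hP n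
      rw [cnt_cons, cnt_cons] at this
      apply h3
      · intro ha; rw [if_pos ha] at this; omega
      · intro hb; rw [if_pos hb] at this; omega
    · intro n hn
      rw [cnt_cons, cnt_cons] at hn
      apply h3
      · intro ha; rw [if_pos ha] at hn; omega
      · intro hb; rw [if_pos hb] at hn; omega

/-- A permutation which permutes the classes of a disjoint family canonically and fixes the
other points lies in `CT`. -/
theorem mem_CT_of_rel_self {P : Multiset RC} (hP : ∀ n, cnt P n ≤ 1) {h : Equiv.Perm ℤ}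
    (hr : Rel (Canon h) P P) (hfix : ∀ n, cnt P n = 0 → h n = n) : h ∈ CT := by
  induction P using Multiset.induction_on generalizing h with
  | empty =>
    have : h = 1 := by
      ext n
      exact hfix n (cnt_zero n)
    rw [this]; exact CT.one_mem
  | cons A P ih =>
    obtain ⟨B, Q, hAB, hPQ, hE⟩ := Multiset.rel_cons_left.1 hr
    obtain ⟨τ, hτ, h1, h2, h3⟩ := exists_swap hP hE
    have : τ * h ∈ CT := by
      apply ih
      · intro n
        have := hP n
        rw [cnt_cons] at this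
        omega
      · exact rel_mul hPQ h2
      · intro n hn
        by_cases ha : A.Mem n
        · obtain ⟨k, rfl⟩ := ha
          rw [Equiv.Perm.mul_apply, hAB, h1]
        · have h0 : cnt (A ::ₘ P) n = 0 := by rw [cnt_cons, if_neg ha, hn]
          rw [Equiv.Perm.mul_apply, hfix n h0, h3 n h0]
    have h' : h = τ⁻¹ * (τ * h) := by group
    rw [h']
    exact CT.mul_mem (CT.inv_mem hτ) this

/-- Partitions of the integers into at least two residue classes. -/
structure Ptn where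
  P : Multiset RC
  one : ∀ n, cnt P n = 1
  two : 2 ≤ card P

/-- Two partitions are equivalent if a member of `CT` maps one canonically to the other. -/
def Eqv (X Y : Ptn) : Prop := ∃ g ∈ CT, Rel (Canon g) X.P Y.P

instance ptnSetoid : Setoid Ptn where
  r := Eqv
  iseqv := by
    refine ⟨fun X => ⟨1, CT.one_mem, rel_of_fix (fun n _ => rfl)⟩, ?_, ?_⟩
    · rintro X Y ⟨g, hg, h⟩
      exact ⟨g⁻¹, CT.inv_mem hg, rel_inv h⟩
    · rintro X Y Z ⟨g, hg, h⟩ ⟨g', hg', h'⟩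
      exact ⟨g' * g, CT.mul_mem hg' hg, rel_mul h h'⟩

theorem mem_CT_of_eqv {X Y : Ptn} (hXY : X ≈ Y) {g : Equiv.Perm ℤ}
    (h : Rel (Canon g) X.P Y.P) : g ∈ CT := by
  obtain ⟨g0, hg0, h0⟩ := hXY
  have : g0⁻¹ * g ∈ CT := by
    apply mem_CT_of_rel_self (fun n => (X.one n).le) (rel_mul h (rel_inv h0))
    intro n hn
    rw [X.one n] at hn
    exact absurd hn one_ne_zero
  have h' : g = g0 * (g0⁻¹ * g) := by group
  rw [h']
  exact CT.mul_mem hg0 this

/-- `Y` arises from `X` by splitting one class into `p + 1` classes. -/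
def Spl (p : ℕ) (X Y : Ptn) : Prop := ∃ A P0, X.P = A ::ₘ P0 ∧ Y.P = A.split p + P0

theorem exists_spl_at (p : ℕ) (X : Ptn) {A : RC} {P0 : Multiset RC} (h : X.P = A ::ₘ P0) :
    ∃ Y : Ptn, Y.P = A.split p + P0 := by
  refine ⟨⟨A.split p + P0, fun n => ?_, ?_⟩, rfl⟩
  · rw [cnt_split_add, ← h, X.one]
  · have := X.two
    rw [h, Multiset.card_cons] at this
    rw [Multiset.card_add, card_split]
    omega

theorem exists_spl (p : ℕ) (X : Ptn) : ∃ Y : Ptn, Spl p X Y := by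
  have hX : X.P ≠ 0 := by
    intro h
    have := X.two
    rw [h] at this
    simp at this
  obtain ⟨A, hA⟩ := Multiset.exists_mem_of_ne_zero hX
  obtain ⟨P0, h⟩ := Multiset.exists_cons_of_mem hA
  obtain ⟨Y, hY⟩ := exists_spl_at p X h
  exact ⟨Y, A, P0, h, hY⟩

theorem Spl.card {p : ℕ} {X Y : Ptn} (h : Spl p X Y) : card Y.P = card X.P + p := by
  obtain ⟨A, P0, h1, h2⟩ := h
  rw [h1, h2, Multiset.card_add, card_split, Multiset.card_cons]
  omega

theorem Spl.eqv {p : ℕ} {X X' Y Y' : Ptn} (hX : Spl p X X') (hY : Spl p Y Y') (h : X ≈ Y) :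
    X' ≈ Y' := by
  obtain ⟨A, P0, h1, h2⟩ := hX
  obtain ⟨B, Q0, h3, h4⟩ := hY
  obtain ⟨g, hg, hr⟩ := h
  rw [h1] at hr
  obtain ⟨B', Q0', hAB, hPQ, hE⟩ := Multiset.rel_cons_left.1 hr
  rw [h3] at hE
  obtain ⟨τ, hτ, t1, t2, -⟩ := exists_swap (fun n => by rw [← h3]; exact (Y.one n).le) hE
  refine ⟨τ * g, CT.mul_mem hτ hg, ?_⟩
  rw [h2, h4]
  refine Rel.add (Canon.split ?_ p) (rel_mul hPQ t2)
  intro k
  rw [Equiv.Perm.mul_apply, hAB, t1]

theorem Spl.eqv_of {p : ℕ} {X X' Y Y' : Ptn} (hX : Spl p X X') (hY : Spl p Y Y') (h : X' ≈ Y') :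
    X ≈ Y := by
  have hc : Multiset.card X.P = Multiset.card Y.P := by
    obtain ⟨g, -, hr⟩ := h
    have := Multiset.card_eq_card_of_rel hr
    rw [hX.card, hY.card] at this
    omega
  obtain ⟨A, P0, h1, h2⟩ := hX
  obtain ⟨B, Q0, h3, h4⟩ := hY
  obtain ⟨g, g1, g2⟩ := exists_perm_cons (A := A) (B := B) (P := P0) (Q := Q0)
    (fun n => by rw [← h1]; exact X.one n) (fun n => by rw [← h3]; exact Y.one n)
    (by rw [h1, h3] at hc; simpa using hc)
  refine ⟨g, mem_CT_of_eqv h ?_, ?_⟩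
  · rw [h2, h4]
    exact Rel.add (g1.split p) g2
  · rw [h1, h3]
    exact Rel.cons g1 g2

/-- Equivalence classes of partitions. -/
abbrev Cl := Quotient ptnSetoid

/-- Splitting, on equivalence classes. -/
noncomputable def sp (p : ℕ) : Cl → Cl :=
  Quotient.map (fun X => (exists_spl p X).choose)
    (fun X Y h => (exists_spl p X).choose_spec.eqv (exists_spl p Y).choose_spec h)

theorem sp_mk {p : ℕ} {X Y : Ptn} (h : Spl p X Y) : sp p ⟦X⟧ = ⟦Y⟧ :=
  Quotient.sound ((exists_spl p X).choose_spec.eqv h (Setoid.refl X))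

theorem sp_injective (p : ℕ) : Function.Injective (sp p) := by
  intro x y
  refine Quotient.inductionOn₂ x y ?_
  intro X Y h
  exact Quotient.sound ((exists_spl p X).choose_spec.eqv_of (exists_spl p Y).choose_spec
    (Quotient.exact h))

theorem sp_comm (p q : ℕ) (x : Cl) : sp p (sp q x) = sp q (sp p x) := by
  refine Quotient.inductionOn x ?_
  intro X
  have h2 := X.two
  have hX : X.P ≠ 0 := by
    intro h
    rw [h] at h2
    simp at h2
  obtain ⟨A, hA⟩ := Multiset.exists_mem_of_ne_zero hX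
  obtain ⟨P0, h⟩ := Multiset.exists_cons_of_mem hA
  have hP0 : P0 ≠ 0 := by
    intro h'
    rw [h, h'] at h2
    simp at h2
  obtain ⟨B, hB⟩ := Multiset.exists_mem_of_ne_zero hP0
  obtain ⟨R, rfl⟩ := Multiset.exists_cons_of_mem hB
  have h' : X.P = B ::ₘ A ::ₘ R := by rw [h, Multiset.cons_swap]
  obtain ⟨Y1, hY1⟩ := exists_spl_at p X h
  obtain ⟨Y2, hY2⟩ := exists_spl_at q X h'
  have e1 : Y1.P = B ::ₘ (A.split p + R) := by rw [hY1, Multiset.add_cons]
  have e2 : Y2.P = A ::ₘ (B.split q + R) := by rw [hY2, Multiset.add_cons]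
  obtain ⟨Z, hZ⟩ := exists_spl_at q Y1 e1
  rw [sp_mk ⟨A, _, h, hY1⟩, sp_mk ⟨B, _, h', hY2⟩, sp_mk ⟨B, _, e1, hZ⟩,
    sp_mk (X := Y2) (Y := Z) ⟨A, _, e2, by rw [hZ, add_left_comm]⟩]

theorem sp_iterate (p : ℕ) (S : Multiset RC) :
    ∀ (R : Multiset RC) (X Y : Ptn), X.P = S + R → Y.P = (S.bind fun A => A.split p) + R →
      (sp p)^[card S] ⟦X⟧ = ⟦Y⟧ := by
  induction S using Multiset.induction_on with
  | empty =>
    intro R X Y h1 h2
    have : X = Y := by
      cases X; cases Y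
      simp only [Multiset.zero_bind] at h1 h2
      simp only [Ptn.mk.injEq]
      rw [h1, h2]
    rw [this]; rfl
  | cons A S ih =>
    intro R X Y h1 h2
    rw [Multiset.cons_add] at h1
    obtain ⟨Z, hZ⟩ := exists_spl_at p X h1
    rw [Multiset.card_cons, Function.iterate_succ_apply, sp_mk ⟨A, _, h1, hZ⟩]
    apply ih (A.split p + R)
    · rw [hZ, add_left_comm]
    · rw [h2, Multiset.cons_bind]; abel

theorem sp_double (p : ℕ) (x : Cl) : (sp 1)^[p + 1] (sp p x) = (sp p)^[2] (sp 1 x) := by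
  refine Quotient.inductionOn x ?_
  intro X
  obtain ⟨Y1, A, R, h, hY1⟩ := exists_spl p X
  obtain ⟨Y2, hY2⟩ := exists_spl_at 1 X h
  have hZ : ((A.split p).bind fun B => B.split 1) = ((A.split 1).bind fun B => B.split p) := by
    apply eq_of_cnt_eq (M := A.m * (p + 1 : ℕ) * (1 + 1 : ℕ))
    · intro C hC
      obtain ⟨B, hB, hC⟩ := Multiset.mem_bind.1 hC
      rw [m_of_mem_split hC, m_of_mem_split hB]
    · intro C hC
      obtain ⟨B, hB, hC⟩ := Multiset.mem_bind.1 hC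
      rw [m_of_mem_split hC, m_of_mem_split hB]; ring
    · intro n
      rw [cnt_bind_split _ (fun _ => 1), cnt_bind_split _ (fun _ => p), cnt_split, cnt_split]
  let Z : Ptn := ⟨((A.split p).bind fun B => B.split 1) + R, fun n => by
      rw [cnt_add, cnt_bind_split _ (fun _ => 1), ← cnt_add, ← hY1, Y1.one], by
      have := X.two
      rw [h, Multiset.card_cons] at this
      rw [Multiset.card_add, Multiset.card_bind]
      simp only [Function.comp_def, card_split, Multiset.map_const', Multiset.sum_replicate,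
        smul_eq_mul]
      omega⟩
  have e1 := sp_iterate 1 (A.split p) R Y1 Z hY1 rfl
  have e2 := sp_iterate p (A.split 1) R Y2 Z hY2 (by rw [← hZ])
  rw [card_split] at e1 e2
  rw [sp_mk ⟨A, R, h, hY1⟩, sp_mk ⟨A, R, h, hY2⟩, e1, ← e2]

theorem sp_eq_iterate (p : ℕ) (x : Cl) : sp p x = (sp 1)^[p] x := by
  have hc : Function.Commute (sp 1) (sp p) := fun y => sp_comm 1 p y
  have h := sp_double p x
  rw [(hc.iterate_left (p + 1)).eq x] at h
  simp only [Function.iterate_succ_apply', Function.iterate_zero_apply] at h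
  have h1 := sp_injective p h
  rw [← hc.eq x] at h1
  exact (sp_injective 1 h1).symm

/-- The number of classes, on equivalence classes. -/
def clCard : Cl → ℕ :=
  Quotient.lift (fun X : Ptn => card X.P) (fun X Y h => by
    obtain ⟨g, -, hr⟩ := h
    exact Multiset.card_eq_card_of_rel hr)

theorem clCard_sp (p : ℕ) (x : Cl) : clCard (sp p x) = clCard x + p := by
  refine Quotient.inductionOn x ?_
  intro X
  obtain ⟨Y, h⟩ := exists_spl p X
  rw [sp_mk h]
  exact h.card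

theorem clCard_iterate (a : ℕ) (x : Cl) : clCard ((sp 1)^[a] x) = clCard x + a := by
  induction a with
  | zero => rfl
  | succ a ih => rw [Function.iterate_succ_apply', clCard_sp, ih]; ring

theorem reach (k : RC → ℕ) (S : Multiset RC) :
    ∀ (R : Multiset RC) (X Y : Ptn), X.P = S + R → Y.P = (S.bind fun A => A.split (k A)) + R →
      ∃ a : ℕ, (sp 1)^[a] ⟦X⟧ = ⟦Y⟧ := by
  induction S using Multiset.induction_on with
  | empty =>
    intro R X Y h1 h2
    have : X = Y := by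
      cases X; cases Y
      simp only [Multiset.zero_bind] at h1 h2
      simp only [Ptn.mk.injEq]
      rw [h1, h2]
    exact ⟨0, by rw [this]; rfl⟩
  | cons A S ih =>
    intro R X Y h1 h2
    rw [Multiset.cons_add] at h1
    obtain ⟨Z, hZ⟩ := exists_spl_at (k A) X h1
    obtain ⟨a, ha⟩ := ih (A.split (k A) + R) Z Y (by rw [hZ, add_left_comm])
      (by rw [h2, Multiset.cons_bind]; abel)
    refine ⟨a + k A, ?_⟩
    rw [Function.iterate_add_apply, ← sp_eq_iterate (k A), sp_mk ⟨A, _, h1, hZ⟩, ha]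

theorem exists_common_multiple (S : Multiset RC) : ∃ M : ℤ, 0 < M ∧ ∀ A ∈ S, A.m ∣ M := by
  induction S using Multiset.induction_on with
  | empty => exact ⟨1, one_pos, by simp⟩
  | cons A S ih =>
    obtain ⟨M, hM, h⟩ := ih
    refine ⟨A.m * M, mul_pos A.m_pos hM, ?_⟩
    intro B hB
    rcases Multiset.mem_cons.1 hB with rfl | hB
    · exact dvd_mul_right _ _
    · exact (h B hB).mul_left _

theorem exists_refine (X : Ptn) {M : ℤ} (hM : 0 < M) (h : ∀ A ∈ X.P, A.m ∣ M) :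
    ∃ U : Ptn, (∀ A ∈ U.P, A.m = M) ∧ ∃ a : ℕ, (sp 1)^[a] ⟦X⟧ = ⟦U⟧ := by
  let k : RC → ℕ := fun A => (M / A.m).toNat - 1
  have hcard : ∀ S : Multiset RC, card S ≤ card (S.bind fun A => A.split (k A)) := by
    intro S
    induction S using Multiset.induction_on with
    | empty => simp
    | cons A S ih =>
      rw [Multiset.cons_bind, Multiset.card_add, card_split, Multiset.card_cons]; omega
  let U : Ptn := ⟨X.P.bind fun A => A.split (k A), fun n => by rw [cnt_bind_split, X.one],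
    X.two.trans (hcard _)⟩
  refine ⟨U, ?_, reach k X.P 0 X U (by simp) (by simp [U])⟩
  intro C hC
  obtain ⟨A, hA, hC⟩ := Multiset.mem_bind.1 hC
  rw [m_of_mem_split hC]
  obtain ⟨c, hc⟩ := h A hA
  have hm := A.m_pos
  have hc0 : 0 < c := by
    rw [hc] at hM
    exact (mul_pos_iff_of_pos_left hm).1 hM
  have : M / A.m = c := by rw [hc, Int.mul_ediv_cancel_left _ hm.ne']
  have h2 : ((k A + 1 : ℕ) : ℤ) = c := by
    simp only [k, this]
    omega
  rw [h2, hc]

/-- Any two partitions with the same number of classes are equivalent. -/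
theorem eqv_of_card_eq {X Y : Ptn} (h : card X.P = card Y.P) : X ≈ Y := by
  obtain ⟨M, hM, hd⟩ := exists_common_multiple (X.P + Y.P)
  obtain ⟨U, hU, a, ha⟩ := exists_refine X hM (fun A hA => hd A (Multiset.mem_add.2 (Or.inl hA)))
  obtain ⟨V, hV, b, hb⟩ := exists_refine Y hM (fun A hA => hd A (Multiset.mem_add.2 (Or.inr hA)))
  have hUV : U = V := by
    have := eq_of_cnt_eq hU hV (fun n => by rw [U.one, V.one])
    cases U; cases V
    simp only [Ptn.mk.injEq]
    exact this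
  subst hUV
  have hab : a = b := by
    have h1 := clCard_iterate a ⟦X⟧
    have h2 := clCard_iterate b ⟦Y⟧
    rw [ha] at h1
    rw [hb] at h2
    have h3 : clCard ⟦X⟧ = clCard ⟦Y⟧ := h
    omega
  subst hab
  exact Quotient.exact (((sp_injective 1).iterate a) (ha.trans hb.symm))

/-- Residue-class-wise affine permutations preserving the nonnegative integers. -/
def IsG (g : Equiv.Perm ℤ) : Prop :=
  (∃ m : ℤ, 0 < m ∧ ∀ r : ℤ, ∃ a b : ℚ, ∀ n : ℤ,
      Int.ModEq m n r → ((g n : ℤ) : ℚ) = a * (n : ℚ) + b) ∧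
  ∀ n : ℤ, 0 ≤ g n ↔ 0 ≤ n

theorem exists_canon {g : Equiv.Perm ℤ} (hg : ∀ n : ℤ, 0 ≤ g n ↔ 0 ≤ n) (A : RC) {a b : ℚ}
    (h : ∀ k : ℤ, ((g (A.pt k) : ℤ) : ℚ) = a * ((A.pt k : ℤ) : ℚ) + b) :
    ∃ B : RC, Canon g A B := by
  set s : ℤ := g (A.pt 0) with hs
  set t : ℤ := g (A.pt 1) - g (A.pt 0) with ht
  have key : ∀ k : ℤ, g (A.pt k) = s + t * k := by
    intro k
    have h0 := h 0
    have h1 := h 1
    have hk := h k
    have : ((g (A.pt k) : ℤ) : ℚ) = ((s + t * k : ℤ) : ℚ) := by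
      rw [hk, hs, ht]
      push_cast
      rw [h0, h1]
      simp only [pt]
      push_cast
      ring
    exact_mod_cast this
  have hm := A.m_pos
  have h0 := A.h0
  have h1 := A.h1
  refine ⟨⟨s, t, ?_, ?_⟩, fun k => key k⟩
  · rw [hs, hg]
    simp only [pt]; linarith
  · have h2 : ¬ 0 ≤ g (A.pt (-1)) := by
      rw [hg]
      simp only [pt]; linarith
    rw [key] at h2
    linarith

theorem exists_rel_of_forall {f : ℤ → ℤ} {P : Multiset RC} (h : ∀ A ∈ P, ∃ B, Canon f A B) :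
    ∃ Q, Rel (Canon f) P Q := by
  induction P using Multiset.induction_on with
  | empty => exact ⟨0, Rel.zero⟩
  | cons A P ih =>
    obtain ⟨B, hB⟩ := h A (Multiset.mem_cons_self _ _)
    obtain ⟨Q, hQ⟩ := ih (fun C hC => h C (Multiset.mem_cons_of_mem hC))
    exact ⟨B ::ₘ Q, Rel.cons hB hQ⟩

theorem mem_CT_of_isG {g : Equiv.Perm ℤ} (hg : IsG g) : g ∈ CT := by
  obtain ⟨⟨m, hm, haff⟩, hpos⟩ := hg
  let Z : RC := ⟨0, 1, le_rfl, one_pos⟩
  let p : ℕ := (2 * m).toNat - 1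
  have hp : ((p + 1 : ℕ) : ℤ) = 2 * m := by simp only [p]; omega
  let X : Ptn := ⟨Z.split p, fun n => by
      rw [cnt_split, if_pos]
      exact ⟨n, by simp [pt, Z]⟩, by
      rw [card_split]; omega⟩
  obtain ⟨Q, hQ⟩ : ∃ Q, Rel (Canon g) X.P Q := by
    apply exists_rel_of_forall
    intro A hA
    have hAm : A.m = 2 * m := by
      rw [m_of_mem_split hA, hp]; simp [Z]
    obtain ⟨a, b, hab⟩ := haff A.r
    apply exists_canon hpos A (a := a) (b := b)
    intro k
    apply hab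
    rw [Int.modEq_iff_dvd]
    exact ⟨-2 * k, by simp only [pt, hAm]; ring⟩
  let Y : Ptn := ⟨Q, fun n => by
      obtain ⟨n', rfl⟩ := g.surjective n
      rw [cnt_of_rel g.injective hQ, X.one], by
      rw [← Multiset.card_eq_card_of_rel hQ]; exact X.two⟩
  exact mem_CT_of_eqv (X := X) (Y := Y) (eqv_of_card_eq (Multiset.card_eq_card_of_rel hQ)) hQ

theorem pt_nonneg_iff (A : RC) (k : ℤ) : 0 ≤ A.pt k ↔ 0 ≤ k := by
  have hm := A.m_pos
  have h0 := A.h0
  have h1 := A.h1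
  unfold pt
  constructor
  · intro h
    by_contra hk
    have : k ≤ -1 := by omega
    nlinarith
  · intro h
    positivity

theorem isG_of_mem_gens {σ : Equiv.Perm ℤ} (h : σ ∈ gens) : IsG σ := by
  obtain ⟨A, B, h1, h2, h3, h4⟩ := (mem_gens_iff σ).1 h
  have aff : ∀ C D : RC, Canon σ C D → ∃ a b : ℚ, ∀ n : ℤ, C.Mem n →
      ((σ n : ℤ) : ℚ) = a * (n : ℚ) + b := by
    intro C D hCD
    refine ⟨(D.m : ℚ) / C.m, D.r - (D.m : ℚ) / C.m * C.r, ?_⟩
    rintro n ⟨k, rfl⟩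
    rw [hCD k]
    have : (C.m : ℚ) ≠ 0 := by exact_mod_cast C.m_pos.ne'
    simp only [pt]
    push_cast
    field_simp
    ring
  refine ⟨⟨A.m * B.m, mul_pos A.m_pos B.m_pos, fun r => ?_⟩, fun n => ?_⟩
  · have eA : ∀ n : ℤ, Int.ModEq (A.m * B.m) n r → (A.Mem n ↔ A.Mem r) := by
      intro n hn
      have := hn.of_mul_right B.m
      rw [mem_iff_modEq, mem_iff_modEq]
      exact ⟨fun h => this.symm.trans h, fun h => this.trans h⟩
    have eB : ∀ n : ℤ, Int.ModEq (A.m * B.m) n r → (B.Mem n ↔ B.Mem r) := by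
      intro n hn
      have := hn.of_mul_left A.m
      rw [mem_iff_modEq, mem_iff_modEq]
      exact ⟨fun h => this.symm.trans h, fun h => this.trans h⟩
    by_cases ha : A.Mem r
    · obtain ⟨a, b, hab⟩ := aff A B h2
      exact ⟨a, b, fun n hn => hab n ((eA n hn).2 ha)⟩
    · by_cases hb : B.Mem r
      · obtain ⟨a, b, hab⟩ := aff B A h3
        exact ⟨a, b, fun n hn => hab n ((eB n hn).2 hb)⟩
      · refine ⟨1, 0, fun n hn => ?_⟩
        rw [h4 n (fun h => ha ((eA n hn).1 h)) (fun h => hb ((eB n hn).1 h))]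
        ring
  · by_cases ha : A.Mem n
    · obtain ⟨k, rfl⟩ := ha
      rw [h2, pt_nonneg_iff, pt_nonneg_iff]
    · by_cases hb : B.Mem n
      · obtain ⟨k, rfl⟩ := hb
        rw [h3, pt_nonneg_iff, pt_nonneg_iff]
      · rw [h4 n ha hb]

theorem inv_eq_of_mem_gens {σ : Equiv.Perm ℤ} (h : σ ∈ gens) : σ⁻¹ = σ := by
  obtain ⟨A, B, h1, h2, h3, h4⟩ := (mem_gens_iff σ).1 h
  rw [inv_eq_iff_mul_eq_one]
  ext n
  rw [Equiv.Perm.mul_apply, Equiv.Perm.one_apply]
  by_cases ha : A.Mem n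
  · obtain ⟨k, rfl⟩ := ha
    rw [h2, h3]
  · by_cases hb : B.Mem n
    · obtain ⟨k, rfl⟩ := hb
      rw [h3, h2]
    · rw [h4 n ha hb, h4 n ha hb]

theorem IsG.mul {g h : Equiv.Perm ℤ} (hg : IsG g) (hh : IsG h) : IsG (g * h) := by
  obtain ⟨⟨m, hm, haff⟩, hpos⟩ := hg
  obtain ⟨⟨m', hm', haff'⟩, hpos'⟩ := hh
  refine ⟨⟨m * m', mul_pos hm hm', fun r => ?_⟩, fun n => ?_⟩
  · obtain ⟨a', b', hab'⟩ := haff' r
    obtain ⟨a, b, hab⟩ := haff (h r)
    refine ⟨a * a', a * b' + b, fun n hn => ?_⟩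
    have hn' : Int.ModEq m' n r := hn.of_mul_left m
    have hcong : Int.ModEq m (h n) (h r) := by
      obtain ⟨c, hc⟩ := Int.modEq_iff_dvd.1 hn
      have e1 := hab' n hn'
      have e2 := hab' r (Int.ModEq.refl _)
      have e3 := hab' (r + m') (Int.modEq_iff_dvd.2 ⟨-1, by ring⟩)
      rw [Int.modEq_iff_dvd]
      refine ⟨(h (r + m') - h r) * c, ?_⟩
      have hc' : (n : ℚ) = r - m * m' * c := by
        have : n = r - m * m' * c := by linarith
        exact_mod_cast this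
      have : ((h r - h n : ℤ) : ℚ) = ((m * ((h (r + m') - h r) * c) : ℤ) : ℚ) := by
        push_cast
        rw [e1, e2, e3, hc']
        push_cast
        ring
      exact_mod_cast this
    rw [Equiv.Perm.mul_apply, hab _ hcong, hab' n hn']
    ring
  · rw [Equiv.Perm.mul_apply, hpos, hpos']

theorem isG_one : IsG 1 :=
  ⟨⟨1, one_pos, fun _ => ⟨1, 0, fun n _ => by simp⟩⟩, fun n => by simp⟩

theorem isG_of_mem_CT {g : Equiv.Perm ℤ} (hg : g ∈ CT) : IsG g := by
  refine Subgroup.closure_induction'' (p := fun g _ => IsG g) ?_ ?_ ?_ ?_ hg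
  · exact fun x hx => isG_of_mem_gens hx
  · intro x hx
    rw [inv_eq_of_mem_gens hx]
    exact isG_of_mem_gens hx
  · exact isG_one
  · exact fun x y _ _ hx hy => hx.mul hy

theorem mem_CT_iff (g : Equiv.Perm ℤ) : g ∈ CT ↔ IsG g := ⟨isG_of_mem_CT, mem_CT_of_isG⟩

end Pool.Agent.Lib.MP_2b3d4e_al
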